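import Pool.Agent.W912.StarPsi

/-!
# Star-Hurewicz Isbell–Mrówka spaces: the normal and the metrically embeddable case

ZFC: a `Ψ`-space of cardinality at least `𝔟` which is normal, or which has a continuous map into
a metrizable space that is injective on the almost disjoint family (for instance when the family
is `ℝ`-embeddable, as for families of branches of a tree), is not star-Hurewicz.

The proof is the two-round argument described in `Pool.Agent.W912.StarPsi`.
-/

namespace Pool.Agent.Results.MP_b1d3ea_lc.EmbeddableOrNormal

open scoped Cardinal

open Pool.Agent.W912.StarPsi

/-- Let `A` be an almost disjoint family such that `Ψ(A)` has cardinality at least `𝔟`. If `Ψ(A)`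
admits a continuous map into a metrizable space which is injective on `A`, or if `Ψ(A)` is normal,
then `Ψ(A)` is not star-Hurewicz. -/
theorem result (A : Set (Set ℕ)) (_hA : IsAD A) (hcard : boundingNumber ≤ #(Psi A))
    (h : MetricEmbeddable A ∨ NormalSpace (Psi A)) : ¬ StarHurewicz (Psi A) := by
  rcases h with h | h
  · exact not_starHurewicz_of_embeddable h hcard
  · exact not_starHurewicz_of_embeddable (embeddable_of_normal h) hcard

end Pool.Agent.Results.MP_b1d3ea_lc.EmbeddableOrNormal
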